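import Pool.Agent.W2helper37.DP.Stm2

/-!
Project DP part 2, piece TREE: the quotient partial order of the tree is a free Suslin tree.
-/

set_option autoImplicit false

open Set Pool.Agent.H42.Dom Pool.Agent.H30.Dia Pool.Agent.W2helper37.DP

namespace Pool.Agent.W2helper77.DP

/-- The nodes with the preorder of `t`. -/
def PNd (_t : Lv) : Type := Nd

instance instPre (t : Lv) : Preorder (PNd t) where
  le := Le t
  le_refl := Le.refl t
  le_trans := fun _ _ _ => Le.trans

theorem cmp' {t : Lv} {x y z : Nd} (hx : Le t x z) (hy : Le t y z) : Le t x y ∨ Le t y x := by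
  rcases le_total x.1 y.1 with h | h
  · exact Or.inl ⟨h, fun ξ hξ => (hx.2 ξ hξ).trans (hy.2 ξ (hξ.trans h)).symm⟩
  · exact Or.inr ⟨h, fun ξ hξ => (hy.2 ξ hξ).trans (hx.2 ξ (hξ.trans h)).symm⟩

theorem lev_lt {t : Lv} {x y : Nd} (h : Le t x y) (h' : ¬ Le t y x) : x.1 < y.1 := by
  refine lt_of_le_of_ne h.1 fun e => h' ⟨e.ge, fun ξ hξ => ?_⟩
  exact (h.2 ξ (hξ.trans e.ge)).symm

instance instWf (t : Lv) : WellFoundedLT (PNd t) := by
  have h : StrictMono (fun x : PNd t => (show Nd from x).1) := fun x y hxy => lev_lt hxy.1 hxy.2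
  exact h.wellFoundedLT

/-- The quotient. -/
abbrev TT (t : Lv) : Type := Antisymmetrization (PNd t) (· ≤ ·)

/-- The class of a node. -/
def cl (t : Lv) (x : Nd) : TT t := toAntisymmetrization (α := PNd t) (· ≤ ·) x

/-- A representative. -/
noncomputable def rp (t : Lv) (p : TT t) : Nd := ofAntisymmetrization (α := PNd t) (· ≤ ·) p

theorem cl_rp (t : Lv) (p : TT t) : cl t (rp t p) = p :=
  toAntisymmetrization_ofAntisymmetrization _ _

theorem cl_le {t : Lv} {x y : Nd} : cl t x ≤ cl t y ↔ Le t x y := by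
  exact toAntisymmetrization_le_toAntisymmetrization_iff

theorem le_iff {t : Lv} {p q : TT t} : p ≤ q ↔ Le t (rp t p) (rp t q) := by
  rw [← cl_le, cl_rp, cl_rp]

theorem rp_cl (t : Lv) (x : Nd) : Le t (rp t (cl t x)) x ∧ Le t x (rp t (cl t x)) := by
  rw [← cl_le, ← cl_le, cl_rp]
  exact ⟨le_rfl, le_rfl⟩

theorem rp_lev (t : Lv) (x : Nd) : (rp t (cl t x)).1 = x.1 :=
  le_antisymm (rp_cl t x).1.1 (rp_cl t x).2.1

theorem p_tree : P_FREE → P_TREE := by
  rintro hF ⟨t, ht⟩
  obtain ⟨β₀, hβ₀⟩ : ∃ β₀ : Pool.Agent.H30.Spl.W1, ∀ β, β₀ ≤ β := by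
    obtain ⟨i, -⟩ := Pool.Agent.H30.Spl.W1_bdd (countable_empty)
    refine ⟨(wellFounded_lt (α := Pool.Agent.H30.Spl.W1)).min univ ⟨i, mem_univ i⟩, fun β => ?_⟩
    exact not_lt.1 ((wellFounded_lt (α := Pool.Agent.H30.Spl.W1)).not_lt_min univ (mem_univ β))
  have prod : ∀ (n : ℕ) (r : Fin n → TT t), Pairwise (fun i j => ¬ r i ≤ r j) →
      ∀ A : Set (Fin n → TT t), (∀ a ∈ A, ∀ i, r i ≤ a i) →
        A.Pairwise (fun a b => ∃ i, ¬ a i ≤ b i ∧ ¬ b i ≤ a i) → A.Countable := by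
    intro n r hr A hA hp
    have h := hF t ht n (fun i => rp t (r i)) (fun i j hij h => hr hij (le_iff.2 h))
      ((fun a i => rp t (a i)) '' A) (by
        rintro _ ⟨a, ha, rfl⟩ i
        exact le_iff.1 (hA a ha i)) (by
        rintro _ ⟨a, ha, rfl⟩ _ ⟨b, hb, rfl⟩ hab
        obtain ⟨i, h1, h2⟩ := hp ha hb (fun e => hab (by rw [e]))
        exact ⟨i, fun h => h1 (le_iff.2 h), fun h => h2 (le_iff.2 h)⟩)
    refine countable_of_injective_of_countable_image (fun a _ b _ hab => ?_) h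
    funext i
    have := congrFun hab i
    rw [← cl_rp t (a i), ← cl_rp t (b i)]
    exact congrArg (cl t) this
  have anti : ∀ A : Set (TT t), IsAntichain (· ≤ ·) A → A.Countable := by
    intro A hA
    have h1 : A ⊆ ⋃ k : ℕ, {p ∈ A | cl t (β₀, k) ≤ p} := by
      intro p hp
      obtain ⟨k, hk⟩ := ht.R (rp t p) β₀ (hβ₀ _)
      refine mem_iUnion.2 ⟨k, hp, ?_⟩
      rw [← cl_rp t p]
      exact cl_le.2 hk
    refine Countable.mono h1 (countable_iUnion fun k => ?_)
    have h2 := prod 1 (fun _ => cl t (β₀, k)) (fun i j hij => absurd (Subsingleton.elim i j) hij)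
      ((fun p _ => p) '' {p ∈ A | cl t (β₀, k) ≤ p}) (by
        rintro _ ⟨p, hp, rfl⟩ _
        exact hp.2) (by
        rintro _ ⟨p, hp, rfl⟩ _ ⟨q, hq, rfl⟩ hpq
        have hne : p ≠ q := fun e => hpq (by rw [e])
        exact ⟨0, hA hp.1 hq.1 hne, hA hq.1 hp.1 hne.symm⟩)
    exact countable_of_injective_of_countable_image (fun a _ b _ hab => congrFun hab 0) h2
  refine ⟨TT t, inferInstance, ⟨cl t (β₀, 0)⟩, inferInstance, fun s => ?_, fun s hs => ?_,
    fun C hC => ?_, anti, prod⟩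
  · intro a ha b hb _
    rcases cmp' (le_iff.1 (le_of_lt ha)) (le_iff.1 (le_of_lt hb)) with h | h
    · exact Or.inl (le_iff.2 h)
    · exact Or.inr (le_iff.2 h)
  · obtain ⟨i, hi⟩ := Pool.Agent.H30.Spl.W1_bdd (hs.image fun p => (rp t p).1)
    obtain ⟨l, hl⟩ := ht.E (rp t s) (max i (rp t s).1) (le_max_right _ _)
    have h1 : cl t (max i (rp t s).1, l) ∈ Ici s := by
      have : cl t (rp t s) ≤ cl t (max i (rp t s).1, l) := cl_le.2 hl
      rwa [cl_rp] at this
    have h2 := hi _ (mem_image_of_mem _ h1)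
    rw [rp_lev] at h2
    exact absurd h2 (not_lt.2 (le_max_left _ _))
  · have hS : ∀ p : TT t, ∃ l, (∀ ξ < (rp t p).1, t (rp t p).1 l ξ = t (rp t p).1 (rp t p).2 ξ) ∧
        t (rp t p).1 l (rp t p).1 = t (rp t p).1 (rp t p).2 (rp t p).1 + 1 := fun p =>
      ht.S _ _ _
    choose l hl1 hl2 using hS
    have key : ∀ c ∈ C, ∀ d ∈ C, c ≠ d →
        ¬ cl t ((rp t c).1, l c) ≤ cl t ((rp t d).1, l d) := by
      intro c hc d hd hcd h
      have h1 : Le t ((rp t c).1, l c) ((rp t d).1, l d) := cl_le.1 h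
      rcases hC hc hd hcd with h2 | h2
      · have h3 : Le t (rp t c) (rp t d) := le_iff.1 h2
        have h4 : (rp t c).1 < (rp t d).1 := lev_lt h3 fun h5 =>
          hcd (le_antisymm h2 (le_iff.2 h5))
        have e1 := h1.2 (rp t c).1 le_rfl
        have e2 := h3.2 (rp t c).1 le_rfl
        have e3 := hl1 d (rp t c).1 h4
        have e4 := hl2 c
        simp only at e1
        omega
      · have h3 : Le t (rp t d) (rp t c) := le_iff.1 h2
        have h4 : (rp t d).1 < (rp t c).1 := lev_lt h3 fun h5 =>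
          hcd (le_antisymm (le_iff.2 h5) h2)
        exact absurd h1.1 (not_le.2 h4)
    have h5 : ((fun c => cl t ((rp t c).1, l c)) '' C).Countable := by
      refine anti _ ?_
      rintro _ ⟨c, hc, rfl⟩ _ ⟨d, hd, rfl⟩ hcd
      exact key c hc d hd fun e => hcd (by rw [e])
    refine countable_of_injective_of_countable_image (fun a ha b hb hab => ?_) h5
    by_contra hne
    exact key a ha b hb hne hab.le

end Pool.Agent.W2helper77.DP
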